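import Pool.Agent.Helper16.SL.Rank

/-!
# Generic hyperplanes, block B8: the constants

PROOF. `B` = a maximal set of monomials `u^m`, `∑ m = 0`, which is algebraically independent over `k(y)`; `K` = the algebraic closure
of `k(B)` in `Ω`. Let `T` have `n + 2` elements, `t ∈ T`. The `n + 1` ratios `u_i / u_t` (`i ∈ T`, `i ≠ t`) and `B` are algebraic over
`k(y, B)`, so they are algebraically dependent over `k`; by `poly` they are multiplicatively dependent mod constants.
-/

set_option autoImplicit false

namespace Pool.Agent.GH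

open Pool.Agent.SL AlgebraicIndependent

universe u v

variable {k : Type u} {Ω : Type v} [Field k] [Field Ω] [Algebra k Ω]

/-- multiplicative relation of algebraically dependent units -/
theorem mrel (D : Dat k Ω) {σ : Type*} [Fintype σ] (t : σ → Ω) (ht : ∀ i, D.U (t i))
    (h : ¬ AlgebraicIndependent k t) : ∃ m : σ → ℤ, m ≠ 0 ∧ ∃ a : k, ∏ i, t i ^ m i = algebraMap k Ω a := by
  classical
  rw [algebraicIndependent_iff] at h
  push Not at h
  obtain ⟨p, hp, hp0⟩ := h
  obtain ⟨μ, hμ⟩ := MvPolynomial.ne_zero_iff.1 hp0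
  obtain ⟨ν, hν, -, a, ha⟩ := poly D t ht p hp μ hμ
  refine ⟨fun i => (μ i : ℤ) - ν i, ?_, a, ?_⟩
  · intro h0
    apply hν
    ext i
    have := congrFun h0 i
    simp only [Pi.zero_apply] at this
    omega
  · have h1 : ∏ i, t i ^ ν i ≠ 0 := Finset.prod_ne_zero_iff.2 fun i _ => pow_ne_zero _ (ht i).1
    have h2 : ∏ i, t i ^ ((μ i : ℤ) - ν i) = (∏ i, t i ^ μ i) / ∏ i, t i ^ ν i := by
      rw [← Finset.prod_div_distrib]
      refine Finset.prod_congr rfl fun i _ => ?_
      rw [zpow_sub₀ (ht i).1, zpow_natCast, zpow_natCast]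
    rw [h2, ha, mul_div_assoc, div_self h1, mul_one]

/-- the converse -/
theorem mrel_conv {σ : Type*} [Fintype σ] (t : σ → Ω) (ht : ∀ i, t i ≠ 0) (m : σ → ℤ) (hm : m ≠ 0)
    (a : k) (h : ∏ i, t i ^ m i = algebraMap k Ω a) : ¬ AlgebraicIndependent k t := by
  classical
  intro hind
  rw [algebraicIndependent_iff] at hind
  let μ : σ →₀ ℕ := Finsupp.equivFunOnFinite.symm fun i => (m i).toNat
  let ν : σ →₀ ℕ := Finsupp.equivFunOnFinite.symm fun i => (-m i).toNat
  have hne : μ ≠ ν := by
    intro h0
    apply hm
    funext i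
    have h1 : (m i).toNat = (-m i).toNat := DFunLike.congr_fun h0 i
    simp only [Pi.zero_apply]
    omega
  have h1 : ∏ i, t i ^ μ i = algebraMap k Ω a * ∏ i, t i ^ ν i := by
    rw [← h, ← Finset.prod_mul_distrib]
    refine Finset.prod_congr rfl fun i _ => ?_
    show t i ^ (m i).toNat = t i ^ m i * t i ^ (-m i).toNat
    rw [← zpow_natCast, ← zpow_natCast, ← zpow_add₀ (ht i)]
    congr 1
    omega
  have h2 := hind (MvPolynomial.monomial μ 1 - MvPolynomial.monomial ν a) (by
    rw [map_sub, MvPolynomial.aeval_monomial, MvPolynomial.aeval_monomial, map_one, one_mul,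
      Finsupp.prod_fintype _ _ (fun i => pow_zero _), Finsupp.prod_fintype _ _ (fun i => pow_zero _), h1, sub_self])
  have h3 := congrArg (MvPolynomial.coeff μ) h2
  rw [MvPolynomial.coeff_sub, MvPolynomial.coeff_monomial, MvPolynomial.coeff_monomial, if_pos rfl,
    if_neg hne.symm, sub_zero, MvPolynomial.coeff_zero] at h3
  exact one_ne_zero h3

theorem constants (D : Dat k Ω) {n q : ℕ} (u : Fin q → Ω) (hu : ∀ i, D.U (u i)) (y : Fin n → Ω)
    (hy : AlgebraicIndependent k y) :
    ∃ K : IntermediateField k Ω, AlgebraicIndependent K y ∧ (∀ z : Ω, IsAlgebraic K z → z ∈ K) ∧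
      ∀ T : Finset (Fin q), T.card = n + 2 → ∃ m : Fin q → ℤ, m ≠ 0 ∧ (∀ i, i ∉ T → m i = 0) ∧
        ∑ i, m i = 0 ∧ ∏ i, u i ^ m i ∈ K := by
  classical
  have hu0 : ∀ i, u i ≠ 0 := fun i => (hu i).1
  set G : Set Ω := {z | ∃ m : Fin q → ℤ, ∑ i, m i = 0 ∧ z = ∏ i, u i ^ m i} with hG
  have hGU : ∀ z ∈ G, D.U z := by
    rintro _ ⟨m, -, rfl⟩
    exact Dat.U.prod _ fun i _ => (hu i).zpow _
  have hYind : (matroid k Ω).Indep (Set.range y) := by
    rw [matroid_indep_iff]
    exact hy.coe_range
  obtain ⟨I, hI, hYI⟩ := hYind.subset_isBasis_of_subset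
    (Set.subset_union_left : Set.range y ⊆ Set.range y ∪ G) (by simp)
  set B : Set Ω := I \ Set.range y with hB
  have hBG : B ⊆ G := by
    intro z hz
    rcases hI.subset hz.1 with h | h
    · exact absurd h hz.2
    · exact h
  have hIY : I = Set.range y ∪ B := by
    rw [hB, Set.union_sdiff_cancel hYI]
  have hIind : AlgebraicIndependent k ((↑) : I → Ω) := by
    have := hI.indep
    rwa [matroid_indep_iff] at this
  -- finiteness
  have hGcl : G ⊆ (matroid k Ω).closure (Set.range u) := by
    rintro _ ⟨m, -, rfl⟩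
    have h1 : ∀ s : Finset (Fin q), ∏ i ∈ s, u i ^ m i ∈ (matroid k Ω).closure (Set.range u) := by
      intro s
      induction s using Finset.induction_on with
      | empty => rw [Finset.prod_empty]; exact cl_cst ⟨1, (map_one _).symm⟩
      | insert i s hi ih =>
        rw [Finset.prod_insert hi]
        exact cl_mul (cl_zpow (Matroid.mem_closure_of_mem _ (Set.mem_range_self i) (by simp)) _) ih
    exact h1 _
  have hBfin : B.Finite := by
    have h1 : (matroid k Ω).Indep B := hI.indep.subset Set.sdiff_subset
    have h2 := (matroid k Ω).eRk_mono (hBG.trans hGcl)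
    rw [Matroid.eRk_closure_eq, h1.eRk_eq_encard] at h2
    have h3 := h2.trans ((matroid k Ω).eRk_le_encard _)
    exact Set.finite_of_encard_le_coe (k := q) (h3.trans (by
      rw [← Set.image_univ]
      refine (Set.encard_image_le _ _).trans ?_
      rw [Set.encard_univ]
      simp))
  have : Fintype B := hBfin.fintype
  -- independence of `y` over `k(B)`
  have hsum : AlgebraicIndependent k (Sum.elim y ((↑) : B → Ω)) := by
    let f : Fin n ⊕ B → I := Sum.elim (fun i => ⟨y i, hYI (Set.mem_range_self i)⟩) (fun b => ⟨b.1, b.2.1⟩)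
    have hf : Function.Injective f := by
      rintro (i | b) (j | c) h
      · exact congrArg _ (hy.injective (congrArg Subtype.val h))
      · exact absurd ⟨i, congrArg Subtype.val h⟩ c.2.2
      · exact absurd ⟨j, (congrArg Subtype.val h).symm⟩ b.2.2
      · exact congrArg _ (Subtype.ext (congrArg Subtype.val h :))
    have h1 := hIind.comp f hf
    convert h1 using 1
    funext i
    rcases i with i | b <;> rfl
  have hyB : AlgebraicIndependent (IntermediateField.adjoin k B) y := by
    rw [IntermediateField.algebraicIndependent_adjoin_iff]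
    have h1 := (sumElim_iff.1 hsum).2
    rwa [Subtype.range_coe] at h1
  have hyK := hyB.algebraicClosure
  refine ⟨(algebraicClosure (IntermediateField.adjoin k B) Ω).restrictScalars k, hyK, ?_, ?_⟩
  · intro z hz
    have h1 : IsAlgebraic (algebraicClosure (IntermediateField.adjoin k B) Ω) z := hz
    have h2 : IsAlgebraic (IntermediateField.adjoin k B) z := h1.restrictScalars _
    exact (mem_algebraicClosure_iff.2 h2 : z ∈ algebraicClosure (IntermediateField.adjoin k B) Ω)
  · intro T hT
    have hBK : ∀ b ∈ B, b ∈ (algebraicClosure (IntermediateField.adjoin k B) Ω).restrictScalars k := by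
      intro b hb
      have h1 : IsAlgebraic (IntermediateField.adjoin k B) b :=
        isAlgebraic_algebraMap (⟨b, IntermediateField.subset_adjoin k B hb⟩ : IntermediateField.adjoin k B)
      exact (mem_algebraicClosure_iff.2 h1 : b ∈ algebraicClosure (IntermediateField.adjoin k B) Ω)
    obtain ⟨t, ht⟩ : T.Nonempty := by rw [← Finset.card_pos]; omega
    let f : (T.erase t) ⊕ B → Ω := Sum.elim (fun i => u i / u t) ((↑) : B → Ω)
    have hfU : ∀ i, D.U (f i) := by
      rintro (i | b)
      · exact (hu i).div (hu t)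
      · exact hGU _ (hBG b.2)
    have hratio : ∀ i, u i / u t ∈ G := by
      intro i
      refine ⟨Pi.single i 1 - Pi.single t 1, ?_, ?_⟩
      · simp [Finset.sum_sub_distrib]
      · have h1 : ∀ j, u j ^ ((Pi.single i 1 - Pi.single t 1 : Fin q → ℤ) j) =
            u j ^ ((Pi.single i 1 : Fin q → ℤ) j) / u j ^ ((Pi.single t 1 : Fin q → ℤ) j) := by
          intro j
          rw [Pi.sub_apply, zpow_sub₀ (hu0 j)]
        rw [Finset.prod_congr rfl fun j _ => h1 j, Finset.prod_div_distrib]
        have h2 : ∀ i : Fin q, ∏ j, u j ^ ((Pi.single i 1 : Fin q → ℤ) j) = u i := by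
          intro i
          rw [Finset.prod_eq_single i]
          · simp
          · intro j _ hj
            simp [hj]
          · simp
        rw [h2, h2]
    have hdep : ¬ AlgebraicIndependent k f := by
      intro hf
      have h1 : (matroid k Ω).Indep (Set.range f) := by
        rw [matroid_indep_iff]
        exact hf.coe_range
      have h2 : Set.range f ⊆ (matroid k Ω).closure I := by
        rw [hI.closure_eq_closure]
        rintro _ ⟨i | b, rfl⟩
        · exact Matroid.mem_closure_of_mem _ (Or.inr (hratio i)) (by simp)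
        · exact Matroid.mem_closure_of_mem _ (Or.inr (hBG b.2)) (by simp)
      have h3 := (matroid k Ω).eRk_mono h2
      rw [Matroid.eRk_closure_eq, h1.eRk_eq_encard, hI.indep.eRk_eq_encard] at h3
      have h4 : (Set.range f).encard = ((n + 1 + Fintype.card B : ℕ) : ℕ∞) := by
        rw [← Set.image_univ, hf.injective.encard_image, Set.encard_univ, ENat.card_eq_coe_fintype_card,
          Fintype.card_sum, Fintype.card_coe, Finset.card_erase_of_mem ht, hT]
        rfl
      have h5 : I.encard ≤ ((n + Fintype.card B : ℕ) : ℕ∞) := by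
        rw [hIY]
        refine (Set.encard_union_le _ _).trans ?_
        have h6 : (Set.range y).encard = (n : ℕ∞) := by
          rw [← Set.image_univ, hy.injective.encard_image, Set.encard_univ]
          simp
        have h7 : B.encard = (Fintype.card B : ℕ∞) := by
          rw [← Set.coe_fintypeCard]
        rw [h6, h7]
        push_cast
        exact le_rfl
      rw [h4] at h3
      have h6 := h3.trans h5
      rw [Nat.cast_le] at h6
      omega
    obtain ⟨δ, hδ, a, ha⟩ := mrel D f hfU hdep
    rw [Fintype.prod_sum_type] at ha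
    have hb0 : ∀ b : B, (b : Ω) ≠ 0 := fun b => (hGU _ (hBG b.2)).1
    have hl : ∃ i : T.erase t, δ (Sum.inl i) ≠ 0 := by
      by_contra hcon
      push Not at hcon
      refine mrel_conv ((↑) : B → Ω) hb0 (fun b => δ (Sum.inr b)) ?_ a ?_ (sumElim_iff.1 hsum).1
      · intro h
        apply hδ
        funext i
        rcases i with i | b
        · exact hcon i
        · exact congrFun h b
      · rw [← ha]
        have h1 : ∏ i : T.erase t, f (Sum.inl i) ^ δ (Sum.inl i) = 1 :=
          Finset.prod_eq_one fun i _ => by rw [hcon i, zpow_zero]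
        rw [h1, one_mul]
        rfl
    obtain ⟨i0, hi0⟩ := hl
    let m : Fin q → ℤ := fun i => if h : i ∈ T.erase t then δ (Sum.inl ⟨i, h⟩) else
      if i = t then -∑ j : T.erase t, δ (Sum.inl j) else 0
    have hm1 : ∀ i : T.erase t, m i = δ (Sum.inl i) := fun i => by simp only [m, dif_pos i.2]
    have hmt : m t = -∑ j : T.erase t, δ (Sum.inl j) := by
      simp only [m]
      rw [dif_neg (by simp)]
      simp
    have hm0 : ∀ i, i ∉ T → m i = 0 := by
      intro i hi
      simp only [m]
      rw [dif_neg (fun h => hi (Finset.mem_of_mem_erase h)), if_neg]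
      rintro rfl
      exact hi ht
    have hsumT : ∀ (A : Type v) [CommMonoid A] (g : Fin q → A), (∀ i, i ∉ T → g i = 1) →
        ∏ i, g i = g t * ∏ i : T.erase t, g i := by
      intro A _ g hg
      rw [← Finset.prod_subset (Finset.subset_univ T) fun i _ hi => hg i hi, ← Finset.mul_prod_erase T g ht,
        Finset.prod_coe_sort]
    refine ⟨m, ?_, hm0, ?_, ?_⟩
    · intro h
      apply hi0
      rw [← hm1, h]
      rfl
    · rw [← Finset.sum_subset (Finset.subset_univ T) fun i _ hi => hm0 i hi, ← Finset.add_sum_erase T m ht,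
        hmt, ← Finset.sum_coe_sort (T.erase t) m, Finset.sum_congr rfl fun i _ => hm1 i]
      ring
    · have h1 : ∏ i, u i ^ m i = ∏ i : T.erase t, f (Sum.inl i) ^ δ (Sum.inl i) := by
        rw [hsumT Ω (fun i => u i ^ m i) (fun i hi => by rw [hm0 i hi, zpow_zero]), hmt]
        have h2 : ∀ i : T.erase t, f (Sum.inl i) ^ δ (Sum.inl i) = u i ^ m i / u t ^ δ (Sum.inl i) := by
          intro i
          rw [hm1]
          exact div_zpow _ _ _
        rw [Finset.prod_congr rfl fun i _ => h2 i, Finset.prod_div_distrib, zpow_neg]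
        have h3 : ∏ i : T.erase t, u t ^ δ (Sum.inl i) = u t ^ ∑ j : T.erase t, δ (Sum.inl j) := by
          have h4 : ∀ s : Finset (T.erase t), ∏ i ∈ s, u t ^ δ (Sum.inl i) =
              u t ^ ∑ j ∈ s, δ (Sum.inl j) := by
            intro s
            induction s using Finset.induction_on with
            | empty => simp
            | insert i s hi ih => rw [Finset.prod_insert hi, Finset.sum_insert hi, zpow_add₀ (hu0 t), ih]
          exact h4 _
        rw [h3, div_eq_mul_inv, mul_comm]
      rw [h1]
      have h2 : ∏ b : B, (b : Ω) ^ δ (Sum.inr b) ≠ 0 :=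
        Finset.prod_ne_zero_iff.2 fun b _ => zpow_ne_zero _ (hb0 b)
      have h3 : ∏ i : T.erase t, f (Sum.inl i) ^ δ (Sum.inl i) =
          algebraMap k Ω a / ∏ b : B, (b : Ω) ^ δ (Sum.inr b) := by
        rw [eq_div_iff h2]
        exact ha
      rw [h3]
      refine div_mem (algebraMap_mem _ a) (prod_mem fun b _ => zpow_mem (hBK b b.2) _)

end Pool.Agent.GH
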